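import Pool.Agent.Helper40.PR.Defs

/-!
# PR-TK10: a closedness lemma and polarization
-/

namespace PR

/-- CL. The condition `∃ a b, ...` is closed. -/
theorem phase_closed {F : ℂ → ℕ → ℂ} {F' : ℂ → ℂ} {U W : ℕ → ℂ} {U' W' : ℂ}
    (h : ∀ n, ∃ a b : ℂ, ‖U n‖ = ‖a‖ ∧ ‖W n‖ = ‖b‖ ∧ ∀ s, ‖F s n‖ = ‖a + s * b‖)
    (hF : ∀ s, Filter.Tendsto (F s) Filter.atTop (nhds (F' s)))
    (hU : Filter.Tendsto U Filter.atTop (nhds U')) (hW : Filter.Tendsto W Filter.atTop (nhds W')) :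
    ∃ a b : ℂ, ‖U'‖ = ‖a‖ ∧ ‖W'‖ = ‖b‖ ∧ ∀ s, ‖F' s‖ = ‖a + s * b‖ := by
  choose a b ha hb hs using h
  obtain ⟨R, hR⟩ := hU.norm.bddAbove_range
  obtain ⟨R', hR'⟩ := hW.norm.bddAbove_range
  have h1 : ∀ n, (a n, b n) ∈ (Metric.closedBall (0 : ℂ) R ×ˢ Metric.closedBall (0 : ℂ) R') := by
    intro n
    refine ⟨?_, ?_⟩
    · rw [mem_closedBall_zero_iff, ← ha n]
      exact hR ⟨n, rfl⟩
    · rw [mem_closedBall_zero_iff, ← hb n]
      exact hR' ⟨n, rfl⟩
  obtain ⟨⟨a', b'⟩, -, φ, hφ, hlim⟩ :=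
    ((isCompact_closedBall (0 : ℂ) R).prod (isCompact_closedBall (0 : ℂ) R')).tendsto_subseq h1
  have hla : Filter.Tendsto (fun n => a (φ n)) Filter.atTop (nhds a') :=
    (continuous_fst.tendsto _).comp hlim
  have hlb : Filter.Tendsto (fun n => b (φ n)) Filter.atTop (nhds b') :=
    (continuous_snd.tendsto _).comp hlim
  refine ⟨a', b', ?_, ?_, fun s => ?_⟩
  · refine tendsto_nhds_unique (hU.comp hφ.tendsto_atTop).norm ?_
    refine hla.norm.congr fun n => ?_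
    simp [ha]
  · refine tendsto_nhds_unique (hW.comp hφ.tendsto_atTop).norm ?_
    refine hlb.norm.congr fun n => ?_
    simp [hb]
  · refine tendsto_nhds_unique ((hF s).comp hφ.tendsto_atTop).norm ?_
    refine ((hla.add (hlb.const_mul s)).norm).congr fun n => ?_
    simp [hs]

/-- POL. Polarization of polynomials in `t` and `conj t` of degree at most 2 in each. -/
theorem polar (c : Fin 3 → Fin 3 → ℂ)
    (h : ∀ t : ℂ, ∑ i, ∑ j, c i j * t ^ (i : ℕ) * (starRingEnd ℂ t) ^ (j : ℕ) = 0) :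
    ∀ i j, c i j = 0 := by
  have hI : Complex.I ^ 2 = -1 := Complex.I_sq
  have hI3 : Complex.I ^ 3 = -Complex.I := Complex.I_pow_three
  have hI4 : Complex.I ^ 4 = 1 := Complex.I_pow_four
  have hI0 : Complex.I ≠ 0 := Complex.I_ne_zero
  have key : ∀ r : ℝ, (c 0 0 + c 1 1 * r ^ 2 + c 2 2 * r ^ 4 = 0) ∧
      (c 1 0 * r + c 2 1 * r ^ 3 = 0) ∧ (c 0 1 * r + c 1 2 * r ^ 3 = 0) ∧
      ((c 2 0 + c 0 2) * (r : ℂ) ^ 2 = 0) := by
    intro r
    have e1 := h r
    have e2 := h (-r)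
    have e3 := h (r * Complex.I)
    have e4 := h (-(r * Complex.I))
    simp only [Fin.sum_univ_three, Fin.val_zero, Fin.val_one, Fin.val_two, pow_zero, pow_one,
      mul_one, map_neg, map_mul, Complex.conj_I, Complex.conj_ofReal] at e1 e2 e3 e4
    ring_nf at e3 e4
    simp only [hI, hI3, hI4] at e3 e4
    refine ⟨?_, ?_, ?_, ?_⟩
    · linear_combination (e1 + e2 + e3 + e4) / 4
    · linear_combination (e1 - e2) / 4 - Complex.I * (e3 - e4) / 4 +
        (c 1 0 * r + c 2 1 * r ^ 3 - c 0 1 * r - c 1 2 * r ^ 3) / 2 * hI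
    · linear_combination (e1 - e2) / 4 + Complex.I * (e3 - e4) / 4 -
        (c 1 0 * r + c 2 1 * r ^ 3 - c 0 1 * r - c 1 2 * r ^ 3) / 2 * hI
    · linear_combination (e1 + e2 - e3 - e4) / 4
  have g := h (1 + Complex.I)
  simp only [Fin.sum_univ_three, Fin.val_zero, Fin.val_one, Fin.val_two, pow_zero, pow_one,
    mul_one, map_one, map_add, Complex.conj_I] at g
  ring_nf at g
  simp only [hI, hI3, hI4] at g
  obtain ⟨a0, -, -, -⟩ := key 0
  obtain ⟨a1, b1, d1, k1⟩ := key 1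
  obtain ⟨a2, b2, d2, -⟩ := key 2
  push_cast at a0 a1 a2 b1 b2 d1 d2 k1
  have h00 : c 0 0 = 0 := by linear_combination a0
  have h22 : c 2 2 = 0 := by linear_combination (a2 - 4 * a1 + 3 * h00) / 12
  have h11 : c 1 1 = 0 := by linear_combination a1 - h22 - h00
  have h21 : c 2 1 = 0 := by linear_combination (b2 - 2 * b1) / 6
  have h10 : c 1 0 = 0 := by linear_combination b1 - h21
  have h12 : c 1 2 = 0 := by linear_combination (d2 - 2 * d1) / 6
  have h01 : c 0 1 = 0 := by linear_combination d1 - h12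
  have hdiff : c 2 0 - c 0 2 = 0 := by
    have : Complex.I * (c 2 0 - c 0 2) = 0 := by
      rw [h00, h22, h11, h21, h10, h12, h01] at g
      linear_combination g / 2
    exact (mul_eq_zero.1 this).resolve_left hI0
  have h20 : c 2 0 = 0 := by linear_combination (k1 + hdiff) / 2
  have h02 : c 0 2 = 0 := by linear_combination (k1 - hdiff) / 2
  intro i j
  fin_cases i <;> fin_cases j <;> simpa

end PR
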