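import Pool.Agent.Helper40.PR.Defs

/-!
# PR-TK5: Hahn-Banach toolkit
-/

namespace PR

open ContinuousLinearMap

section hb

variable {X : Type*} [NormedAddCommGroup X] [NormedSpace ℂ X]

/-- separation from a finite dimensional subspace -/
theorem exists_dual_sep {n : ℕ} {v : Fin n → X} {w : X}
    (hw : w ∉ Submodule.span ℂ (Set.range v)) :
    ∃ f : X →L[ℂ] ℂ, (∀ i, f (v i) = 0) ∧ f w = 1 := by
  set S : Submodule ℂ X := Submodule.span ℂ (Set.range v) with hS
  have : FiniteDimensional ℂ S := FiniteDimensional.span_of_finite ℂ (Set.finite_range v)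
  have hcl : IsClosed (S : Set X) := Submodule.closed_of_finiteDimensional S
  have := hcl
  have hne : (Submodule.Quotient.mk w : X ⧸ S) ≠ 0 := by
    rw [Ne, Submodule.Quotient.mk_eq_zero]; exact hw
  obtain ⟨g, hg⟩ := SeparatingDual.exists_eq_one (R := ℂ) hne
  refine ⟨g.comp S.mkQL, fun i => ?_, hg⟩
  have : S.mkQL (v i) = 0 := by
    change (Submodule.Quotient.mk (v i) : X ⧸ S) = 0
    rw [Submodule.Quotient.mk_eq_zero]
    exact Submodule.subset_span ⟨i, rfl⟩
  rw [ContinuousLinearMap.comp_apply, this, map_zero]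

/-- prescribed values on finitely many independent vectors -/
theorem exists_dual_fin {n : ℕ} {v : Fin n → X} (hv : LinearIndependent ℂ v) (c : Fin n → ℂ) :
    ∃ f : X →L[ℂ] ℂ, ∀ i, f (v i) = c i := by
  classical
  have key : ∀ i, ∃ f : X →L[ℂ] ℂ, f (v i) = 1 ∧ ∀ j, j ≠ i → f (v j) = 0 := by
    intro i
    have h1 : v i ∉ Submodule.span ℂ (Set.range (Function.update v i 0)) := by
      intro h2
      refine (linearIndependent_iff_notMem_span.1 hv i) (Submodule.span_le.2 ?_ h2)
      rintro _ ⟨j, rfl⟩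
      by_cases hj : j = i
      · subst hj; simp
      · rw [Function.update_of_ne hj]
        exact Submodule.subset_span ⟨j, ⟨Set.mem_univ _, by simpa using hj⟩, rfl⟩
    obtain ⟨f, hf0, hf1⟩ := exists_dual_sep h1
    refine ⟨f, hf1, fun j hj => ?_⟩
    have := hf0 j
    rwa [Function.update_of_ne hj] at this
  choose f hf1 hf0 using key
  refine ⟨∑ i, c i • f i, fun j => ?_⟩
  rw [ContinuousLinearMap.sum_apply, Finset.sum_eq_single j]
  · simp [hf1]
  · intro i _ hij
    simp [hf0 i j (Ne.symm hij)]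
  · simp

/-- prescribed vector values: dual version for finitely many independent functionals -/
theorem exists_vec_fin {n : ℕ} {f : Fin n → X →L[ℂ] ℂ} (hf : LinearIndependent ℂ f) (c : Fin n → ℂ) :
    ∃ x : X, ∀ i, f i x = c i := by
  classical
  let L : X →ₗ[ℂ] (Fin n → ℂ) := LinearMap.pi fun i => (f i : X →ₗ[ℂ] ℂ)
  suffices h : LinearMap.range L = ⊤ by
    obtain ⟨x, hx⟩ := LinearMap.range_eq_top.1 h c
    exact ⟨x, fun i => congrFun hx i⟩
  by_contra hne
  obtain ⟨g, hg, hle⟩ := Submodule.exists_le_ker_of_lt_top _ (lt_top_iff_ne_top.2 hne)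
  refine hg ?_
  have h0 : ∑ i, g (Pi.single i 1) • f i = 0 := by
    ext x
    have h1 : g (L x) = 0 := hle ⟨x, rfl⟩
    have h2 : L x = ∑ i, f i x • (Pi.single i 1 : Fin n → ℂ) := by
      ext j
      simp [L, Finset.sum_apply, Pi.single_apply]
    rw [h2, map_sum] at h1
    simp only [map_smul, smul_eq_mul] at h1
    rw [ContinuousLinearMap.sum_apply]
    simp only [ContinuousLinearMap.smul_apply, smul_eq_mul, ContinuousLinearMap.zero_apply]
    rw [← h1]
    exact Finset.sum_congr rfl fun i _ => mul_comm _ _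
  have h3 := Fintype.linearIndependent_iff.1 hf _ h0
  refine LinearMap.pi_ext' fun i => LinearMap.ext_ring ?_
  simpa using h3 i

/-- a functional which vanishes where two functionals vanish is a combination -/
theorem mem_span_of_ker {n : ℕ} {f : Fin n → X →L[ℂ] ℂ} {g : X →L[ℂ] ℂ}
    (h : ∀ x, (∀ i, f i x = 0) → g x = 0) : g ∈ Submodule.span ℂ (Set.range f) := by
  have h1 : (g : X →ₗ[ℂ] ℂ) ∈
      Submodule.span ℂ (Set.range fun i => (f i : X →ₗ[ℂ] ℂ)) := by
    refine mem_span_of_iInf_ker_le_ker fun x hx => ?_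
    rw [Submodule.mem_iInf] at hx
    exact h x hx
  rw [Submodule.mem_span_range_iff_exists_fun] at h1 ⊢
  obtain ⟨c, hc⟩ := h1
  refine ⟨c, ?_⟩
  ext x
  have := LinearMap.congr_fun hc x
  simpa using this

end hb

end PR
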