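import Pool.Agent.Helper40.PR.Defs2
import Pool.Agent.Helper54.PR.TK5

/-!
# PR-CD5: the structure of pairs satisfying the first order identity
-/

namespace PR

open ContinuousLinearMap

namespace CD5

variable {X : Type*} [NormedAddCommGroup X] [NormedSpace ℂ X]

/-- the first order identity after division by `g y` -/
lemma id1_red {A B : X →L[ℂ] X} (h : Id1 A B) {y : X} (hy : y ≠ 0) (g : X →L[ℂ] ℂ) :
    4 * (g (A y) ^ 2 * g (B (B y)) + g (B y) ^ 2 * g (A (A y)) -
        g (A y) * g (B y) * (g (A (B y)) + g (B (A y)))) =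
      g y * (4 * g (A (A y)) * g (B (B y)) - (g (A (B y)) + g (B (A y))) ^ 2) := by
  obtain ⟨e, he⟩ := SeparatingDual.exists_eq_one (R := ℂ) hy
  have key : (fun t : ℂ => 4 * ((g (A y) + t * e (A y)) ^ 2 * (g (B (B y)) + t * e (B (B y))) +
        (g (B y) + t * e (B y)) ^ 2 * (g (A (A y)) + t * e (A (A y))) -
        (g (A y) + t * e (A y)) * (g (B y) + t * e (B y)) *
          ((g (A (B y)) + t * e (A (B y))) + (g (B (A y)) + t * e (B (A y)))))) =
      (fun t : ℂ => (g y + t) * (4 * (g (A (A y)) + t * e (A (A y))) *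
        (g (B (B y)) + t * e (B (B y))) -
        ((g (A (B y)) + t * e (A (B y))) + (g (B (A y)) + t * e (B (A y)))) ^ 2)) := by
    refine Continuous.ext_on (dense_compl_singleton (-(g y))) (by fun_prop) (by fun_prop) ?_
    intro t ht
    have ht' : g y + t ≠ 0 := fun h0 => ht (by
      rw [Set.mem_singleton_iff]; linear_combination h0)
    have h1 := h y (g + t • e)
    simp only [add_apply, smul_apply, smul_eq_mul, he, mul_one] at h1
    refine mul_left_cancel₀ ht' ?_
    linear_combination h1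
  have := congrFun key 0
  simpa using this

/-- equality of vectors is tested by functionals -/
lemma vec_eq {x y : X} (h : ∀ g : X →L[ℂ] ℂ, g x = g y) : x = y := by
  rw [← sub_eq_zero]
  refine SeparatingDual.eq_zero_of_forall_dual_eq_zero (R := ℂ) fun g => ?_
  rw [map_sub, h g, sub_self]

/-- the identities at an admissible vector -/
lemma at_admissible {A B : X →L[ℂ] X} (h : Id1 A B) {y : X}
    (h0 : LinearIndependent ℂ ![y, A y, B y]) :
    ∃ l m : ℂ, A (A y) = (2 * l) • A y - l ^ 2 • y ∧ B (B y) = (2 * m) • B y - m ^ 2 • y ∧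
      A (B y) + B (A y) = (2 * m) • A y + (2 * l) • B y - (2 * l * m) • y := by
  have hy : y ≠ 0 := by simpa using h0.ne_zero 0
  have hred := id1_red h hy
  obtain ⟨h₀, e0⟩ := exists_dual_fin h0 ![1, 0, 0]
  obtain ⟨h₁, e1⟩ := exists_dual_fin h0 ![0, 1, 0]
  obtain ⟨h₂, e2⟩ := exists_dual_fin h0 ![0, 0, 1]
  have a0 : h₀ y = 1 := by simpa using e0 0
  have a1 : h₀ (A y) = 0 := by simpa using e0 1
  have a2 : h₀ (B y) = 0 := by simpa using e0 2
  have b0 : h₁ y = 0 := by simpa using e1 0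
  have b1 : h₁ (A y) = 1 := by simpa using e1 1
  have b2 : h₁ (B y) = 0 := by simpa using e1 2
  have c0 : h₂ y = 0 := by simpa using e2 0
  have c1 : h₂ (A y) = 0 := by simpa using e2 1
  have c2 : h₂ (B y) = 1 := by simpa using e2 2
  -- functionals which kill `y, A y, B y`
  have F : ∀ (e : X →L[ℂ] ℂ), e y = 0 → e (A y) = 0 → e (B y) = 0 → ∀ α β : ℂ,
      α ^ 2 * (α * h₁ (B (B y)) + β * h₂ (B (B y)) + e (B (B y))) +
      β ^ 2 * (α * h₁ (A (A y)) + β * h₂ (A (A y)) + e (A (A y))) -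
      α * β * (α * (h₁ (A (B y)) + h₁ (B (A y))) + β * (h₂ (A (B y)) + h₂ (B (A y))) +
        (e (A (B y)) + e (B (A y)))) = 0 := by
    intro e ey eA eB α β
    have := hred (α • h₁ + β • h₂ + e)
    simp only [add_apply, smul_apply, smul_eq_mul, b0, b1, b2, c0, c1, c2, ey, eA, eB] at this
    linear_combination this / 4
  have F0 := F 0 (by simp) (by simp) (by simp)
  simp only [zero_apply, add_zero] at F0
  have hB1 : h₁ (B (B y)) = 0 := by linear_combination F0 1 0
  have hA2 : h₂ (A (A y)) = 0 := by linear_combination F0 0 1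
  have hM1 : h₁ (A (B y)) + h₁ (B (A y)) = h₂ (B (B y)) := by
    linear_combination -(F0 1 1 + F0 (-1) 1) / 2 + hA2
  have hM2 : h₂ (A (B y)) + h₂ (B (A y)) = h₁ (A (A y)) := by
    linear_combination -(F0 1 1 - F0 (-1) 1) / 2 + hB1
  have K : ∀ (e : X →L[ℂ] ℂ), e y = 0 → e (A y) = 0 → e (B y) = 0 →
      e (A (A y)) = 0 ∧ e (B (B y)) = 0 ∧ e (A (B y)) + e (B (A y)) = 0 := by
    intro e ey eA eB
    have k1 : e (A (A y)) = 0 := by linear_combination F e ey eA eB 0 1 - hA2
    have k2 : e (B (B y)) = 0 := by linear_combination F e ey eA eB 1 0 - hB1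
    refine ⟨k1, k2, ?_⟩
    linear_combination -(F e ey eA eB 1 1) + F0 1 1 + k1 + k2
  have dec : ∀ g : X →L[ℂ] ℂ,
      g (A (A y)) = g y * h₀ (A (A y)) + g (A y) * h₁ (A (A y)) ∧
      g (B (B y)) = g y * h₀ (B (B y)) + g (B y) * h₂ (B (B y)) ∧
      g (A (B y)) + g (B (A y)) = g y * (h₀ (A (B y)) + h₀ (B (A y))) +
        g (A y) * h₂ (B (B y)) + g (B y) * h₁ (A (A y)) := by
    intro g
    obtain ⟨k1, k2, k3⟩ := K (g - g y • h₀ - g (A y) • h₁ - g (B y) • h₂)
      (by simp [a0, b0, c0]) (by simp [a1, b1, c1]) (by simp [a2, b2, c2])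
    simp only [sub_apply, smul_apply, smul_eq_mul] at k1 k2 k3
    refine ⟨?_, ?_, ?_⟩
    · linear_combination k1 + g (B y) * hA2
    · linear_combination k2 + g (A y) * hB1
    · linear_combination k3 + g (A y) * hM1 + g (B y) * hM2
  have G : ∀ α β : ℂ, 4 * (α ^ 2 * h₀ (B (B y)) + β ^ 2 * h₀ (A (A y)) -
      α * β * (h₀ (A (B y)) + h₀ (B (A y)))) =
      4 * (h₀ (A (A y)) + α * h₁ (A (A y))) * (h₀ (B (B y)) + β * h₂ (B (B y))) -
        ((h₀ (A (B y)) + h₀ (B (A y))) + α * h₂ (B (B y)) + β * h₁ (A (A y))) ^ 2 := by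
    intro α β
    have := hred (α • h₁ + β • h₂ + h₀)
    obtain ⟨d1, d2, d3⟩ := dec (α • h₁ + β • h₂ + h₀)
    rw [d1, d2, d3] at this
    simp only [add_apply, smul_apply, smul_eq_mul, b0, b1, b2, c0, c1, c2, a0, a1, a2] at this
    linear_combination this
  have g00 := G 0 0
  have hd : h₀ (B (B y)) = -(h₂ (B (B y)) / 2) ^ 2 := by
    linear_combination (G 1 0 + G (-1) 0) / 8 - g00 / 4
  have hc : h₀ (A (A y)) = -(h₁ (A (A y)) / 2) ^ 2 := by
    linear_combination (G 0 1 + G 0 (-1)) / 8 - g00 / 4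
  have hm : h₀ (A (B y)) + h₀ (B (A y)) =
      -(2 * (h₁ (A (A y)) / 2) * (h₂ (B (B y)) / 2)) := by
    linear_combination -(G 1 1 - G 1 (-1) - G (-1) 1 + G (-1) (-1)) / 16
  refine ⟨h₁ (A (A y)) / 2, h₂ (B (B y)) / 2, vec_eq fun g => ?_, vec_eq fun g => ?_,
    vec_eq fun g => ?_⟩
  · rw [(dec g).1, map_sub, map_smul, map_smul, smul_eq_mul, smul_eq_mul]
    linear_combination g y * hc
  · rw [(dec g).2.1, map_sub, map_smul, map_smul, smul_eq_mul, smul_eq_mul]
    linear_combination g y * hd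
  · rw [map_add, (dec g).2.2, map_sub, map_add, map_smul, map_smul, map_smul, smul_eq_mul,
      smul_eq_mul, smul_eq_mul]
    linear_combination g y * hm

/-- two different generalised eigenvalues -/
lemma two_eig {A : X →L[ℂ] X} {x : X} {a b : ℂ} (hab : a ≠ b)
    (ha : A (A x) = (2 * a) • A x - a ^ 2 • x) (hb : A (A x) = (2 * b) • A x - b ^ 2 • x) :
    x = 0 := by
  have hab' : a - b ≠ 0 := sub_ne_zero.2 hab
  have h1 : A x = ((a + b) / 2) • x := by
    have h2 : (2 * (a - b)) • (A x - ((a + b) / 2) • x) = 0 := by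
      have h3 : (2 * a) • A x - a ^ 2 • x = (2 * b) • A x - b ^ 2 • x := ha.symm.trans hb
      calc (2 * (a - b)) • (A x - ((a + b) / 2) • x)
          = ((2 * a) • A x - a ^ 2 • x) - ((2 * b) • A x - b ^ 2 • x) := by module
        _ = 0 := by rw [h3, sub_self]
    have h4 := (smul_eq_zero.1 h2).resolve_left (mul_ne_zero two_ne_zero hab')
    exact sub_eq_zero.1 h4
  have h5 : ((a - b) / 2) ^ 2 • x = 0 := by
    have h6 : A (A x) = ((a + b) / 2) ^ 2 • x := by
      rw [h1, map_smul, h1]; module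
    rw [h6, h1] at ha
    calc ((a - b) / 2) ^ 2 • x
        = ((a + b) / 2) ^ 2 • x - ((2 * a) • (((a + b) / 2) • x) - a ^ 2 • x) := by module
      _ = 0 := by rw [← ha, sub_self]
  exact (smul_eq_zero.1 h5).resolve_left (by
    refine pow_ne_zero _ (div_ne_zero hab' two_ne_zero))

/-- `(A - a)²` -/
noncomputable def N (A : X →L[ℂ] X) (a : ℂ) : X →L[ℂ] X := A * A - (2 * a) • A + a ^ 2 • 1

lemma N_apply (A : X →L[ℂ] X) (a : ℂ) (x : X) :
    N A a x = A (A x) - (2 * a) • A x + a ^ 2 • x := rfl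

lemma N_zero_iff {A : X →L[ℂ] X} {a : ℂ} {x : X} :
    N A a x = 0 ↔ A (A x) = (2 * a) • A x - a ^ 2 • x := by
  rw [N_apply, ← sub_eq_zero (a := A (A x))]
  constructor <;> intro h <;> rw [← h] <;> module

lemma N_comm (A : X →L[ℂ] X) (a b : ℂ) (x : X) : N A a (N A b x) = N A b (N A a x) := by
  simp only [N_apply, map_add, map_sub, map_smul]
  module

lemma two_eig' {A : X →L[ℂ] X} {x : X} {a b : ℂ} (hab : a ≠ b) (ha : N A a x = 0)
    (hb : N A b x = 0) : x = 0 := two_eig hab (N_zero_iff.1 ha) (N_zero_iff.1 hb)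

lemma eig_const {A : X →L[ℂ] X} {y0 y1 : X} {l0 l1 l2 t : ℂ} (h0 : y0 ≠ 0) (h1 : y1 ≠ 0)
    (ht : t ≠ 0) (h2 : y0 + t • y1 ≠ 0) (e0 : N A l0 y0 = 0) (e1 : N A l1 y1 = 0)
    (e2 : N A l2 (y0 + t • y1) = 0) : l1 = l0 := by
  by_contra hne
  rcases eq_or_ne l2 l0 with h20 | h20
  · subst h20
    rw [map_add, map_smul, e0, zero_add] at e2
    exact h1 (two_eig' hne e1 ((smul_eq_zero.1 e2).resolve_left ht))
  rcases eq_or_ne l2 l1 with h21 | h21
  · subst h21
    rw [map_add, map_smul, e1, smul_zero, add_zero] at e2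
    exact h0 (two_eig' hne e2 e0)
  have hx : N A l1 (y0 + t • y1) = N A l1 y0 := by
    rw [map_add, map_smul, e1, smul_zero, add_zero]
  have hx0 : N A l1 (y0 + t • y1) = 0 := by
    refine two_eig' h20 (A := A) ?_ ?_
    · rw [N_comm, e2, map_zero]
    · rw [hx, N_comm, e0, map_zero]
  exact h2 (two_eig' h21 e2 hx0)

/-- admissibility is an open condition -/
lemma exists_adm {A B : X →L[ℂ] X} {y : X} (h0 : LinearIndependent ℂ ![y, A y, B y]) (z : X) :
    ∃ t : ℂ, t ≠ 0 ∧ LinearIndependent ℂ ![y + t • z, A (y + t • z), B (y + t • z)] := by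
  have hc : Continuous fun t : ℂ => ![y + t • z, A (y + t • z), B (y + t • z)] := by
    refine continuous_pi fun i => ?_
    fin_cases i
    · simpa using (by fun_prop : Continuous fun t : ℂ => y + t • z)
    · simpa using (by fun_prop : Continuous fun t : ℂ => A y + t • A z)
    · simpa using (by fun_prop : Continuous fun t : ℂ => B y + t • B z)
  have h1 : ∀ᶠ g in nhds ![y + (0 : ℂ) • z, A (y + (0 : ℂ) • z), B (y + (0 : ℂ) • z)],
      LinearIndependent ℂ g := by
    refine LinearIndependent.eventually ?_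
    simpa using h0
  have h2 := hc.continuousAt.eventually h1
  have h3 : ∀ᶠ t in nhdsWithin (0 : ℂ) {0}ᶜ,
      LinearIndependent ℂ ![y + t • z, A (y + t • z), B (y + t • z)] :=
    h2.filter_mono nhdsWithin_le_nhds
  obtain ⟨t, ht, ht0⟩ := (h3.and self_mem_nhdsWithin).exists
  exact ⟨t, ht0, ht⟩

end CD5

set_option linter.unusedSectionVars false

section

open CD5

variable {X : Type*} [NormedAddCommGroup X] [NormedSpace ℂ X] [CompleteSpace X]

theorem struct_of_id1 {A B : X →L[ℂ] X} (h : Id1 A B)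
    (h0 : ∃ y, LinearIndependent ℂ ![y, A y, B y]) :
    ∃ (α β : ℂ) (A0 B0 : X →L[ℂ] X), A = A0 + α • (1 : X →L[ℂ] X) ∧ B = B0 + β • (1 : X →L[ℂ] X) ∧
      A0 * A0 = 0 ∧ B0 * B0 = 0 ∧ A0 * B0 + B0 * A0 = 0 := by
  obtain ⟨y0, hy0⟩ := h0
  have nz : ∀ {y : X}, LinearIndependent ℂ ![y, A y, B y] → y ≠ 0 := fun hy => by
    simpa using hy.ne_zero 0
  obtain ⟨l0, m0, hA0, hB0, hM0⟩ := at_admissible h hy0
  have key : ∀ z : X, N A l0 z = 0 ∧ N B m0 z = 0 ∧
      A (B z) + B (A z) - (2 * m0) • A z - (2 * l0) • B z + (2 * l0 * m0) • z = 0 := by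
    intro z
    obtain ⟨t, ht, hy1⟩ := exists_adm hy0 z
    obtain ⟨l1, m1, hA1, hB1, hM1⟩ := at_admissible h hy1
    obtain ⟨t', ht', hy2⟩ := exists_adm hy0 (y0 + t • z)
    obtain ⟨l2, m2, hA2, hB2, hM2⟩ := at_admissible h hy2
    have hl : l1 = l0 := eig_const (nz hy0) (nz hy1) ht' (nz hy2) (N_zero_iff.2 hA0)
      (N_zero_iff.2 hA1) (N_zero_iff.2 hA2)
    have hm : m1 = m0 := eig_const (nz hy0) (nz hy1) ht' (nz hy2) (N_zero_iff.2 hB0)
      (N_zero_iff.2 hB1) (N_zero_iff.2 hB2)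
    subst hl hm
    refine ⟨?_, ?_, ?_⟩
    · have h1 := N_zero_iff.2 hA1
      rw [map_add, map_smul, N_zero_iff.2 hA0, zero_add] at h1
      exact (smul_eq_zero.1 h1).resolve_left ht
    · have h1 := N_zero_iff.2 hB1
      rw [map_add, map_smul, N_zero_iff.2 hB0, zero_add] at h1
      exact (smul_eq_zero.1 h1).resolve_left ht
    · have h1 : t • (A (B z) + B (A z) - (2 * m1) • A z - (2 * l1) • B z + (2 * l1 * m1) • z)
          = 0 := by
        calc t • (A (B z) + B (A z) - (2 * m1) • A z - (2 * l1) • B z + (2 * l1 * m1) • z)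
            = (A (B (y0 + t • z)) + B (A (y0 + t • z))) -
              ((2 * m1) • A (y0 + t • z) + (2 * l1) • B (y0 + t • z) -
                (2 * l1 * m1) • (y0 + t • z)) -
              ((A (B y0) + B (A y0)) - ((2 * m1) • A y0 + (2 * l1) • B y0 -
                (2 * l1 * m1) • y0)) := by
              simp only [map_add, map_smul]; module
          _ = 0 := by rw [hM1, hM0]; simp
      exact (smul_eq_zero.1 h1).resolve_left ht
  refine ⟨l0, m0, A - l0 • 1, B - m0 • 1, by abel, by abel, ?_, ?_, ?_⟩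
  · ext z
    have h1 := (key z).1
    rw [N_apply] at h1
    change A (A z - l0 • z) - l0 • (A z - l0 • z) = 0
    rw [← h1, map_sub, map_smul]; module
  · ext z
    have h1 := (key z).2.1
    rw [N_apply] at h1
    change B (B z - m0 • z) - m0 • (B z - m0 • z) = 0
    rw [← h1, map_sub, map_smul]; module
  · ext z
    have h1 := (key z).2.2
    change (A (B z - m0 • z) - l0 • (B z - m0 • z)) + (B (A z - l0 • z) - m0 • (A z - l0 • z)) = 0
    rw [← h1, map_sub, map_smul, map_sub, map_smul]; module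

end

end PR
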