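import Pool.Agent.Helper40.PR.Defs3
import Pool.Agent.Helper59.PR.TK2
import Pool.Agent.Helper28.PR.E1
import Pool.Agent.Helper19.PR.E7
import Pool.Agent.Helper37.PR.E8A
import Pool.Agent.Helper39.PR.E8B
import Pool.Agent.Helper66.PR.E9B

/-!
# Skew Lie product, second slot (PR-E9A)
-/

namespace PR

open ContinuousLinearMap InnerProductSpace Complex

open scoped ComplexConjugate

namespace E9A

variable {H : Type*} [NormedAddCommGroup H] [InnerProductSpace ℂ H] [CompleteSpace H]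

/-- In dimension at least three there is a unit vector orthogonal to two given vectors. -/
theorem exists_orth_two (hH : Dim3 H) (a b : H) :
    ∃ x : H, ‖x‖ = 1 ∧ inner ℂ a x = (0 : ℂ) ∧ inner ℂ b x = (0 : ℂ) := by
  classical
  obtain ⟨v, hv⟩ := hH
  set S : Submodule ℂ H := Submodule.span ℂ {a, b} with hS
  have hfin : FiniteDimensional ℂ S := FiniteDimensional.span_of_finite ℂ (by simp)
  have hne : Sᗮ ≠ ⊥ := by
    intro h0
    have htop : S = ⊤ := (Submodule.orthogonal_eq_bot_iff).1 h0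
    have h1 : Module.finrank ℂ S ≤ 2 := by
      have := finrank_span_le_card (R := ℂ) ({a, b} : Set H)
      refine this.trans ?_
      rw [Set.toFinset_insert, Set.toFinset_singleton]
      exact Finset.card_le_two
    have hft : FiniteDimensional ℂ H := by
      have : FiniteDimensional ℂ (⊤ : Submodule ℂ H) := by rw [← htop]; exact hfin
      exact Module.finite_def.2 (Module.Finite.iff_fg.1 this)
    have h2 := hv.fintype_card_le_finrank
    rw [Fintype.card_fin] at h2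
    have h3 : Module.finrank ℂ S = Module.finrank ℂ H := by rw [htop, finrank_top]
    omega
  obtain ⟨z, hz, hz0⟩ := Submodule.exists_mem_ne_zero_of_ne_bot hne
  have hzn : (‖z‖ : ℂ) ≠ 0 := by exact_mod_cast norm_ne_zero_iff.2 hz0
  have ha : inner ℂ a z = (0 : ℂ) := (Submodule.mem_orthogonal S z).1 hz a (Submodule.subset_span (by simp))
  have hb : inner ℂ b z = (0 : ℂ) := (Submodule.mem_orthogonal S z).1 hz b (Submodule.subset_span (by simp))
  refine ⟨((‖z‖ : ℂ)⁻¹) • z, ?_, ?_, ?_⟩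
  · rw [norm_smul, norm_inv, Complex.norm_real, norm_norm, inv_mul_cancel₀ (norm_ne_zero_iff.2 hz0)]
  · rw [inner_smul_right, ha, mul_zero]
  · rw [inner_smul_right, hb, mul_zero]

/-- An operator whose quadratic form vanishes on unit vectors is zero. -/
theorem zero_of_form {J : H →L[ℂ] H} (h : ∀ x : H, ‖x‖ = 1 → inner ℂ x (J x) = (0 : ℂ)) : J = 0 := by
  have h' : ∀ x : H, inner ℂ x (J x) = (0 : ℂ) := by
    intro x
    by_cases hx : x = 0
    · simp [hx]
    · have hxn : (‖x‖ : ℂ) ≠ 0 := by exact_mod_cast norm_ne_zero_iff.2 hx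
      have hu : ‖((‖x‖ : ℂ)⁻¹) • x‖ = 1 := by
        rw [norm_smul, norm_inv, Complex.norm_real, norm_norm, inv_mul_cancel₀ (norm_ne_zero_iff.2 hx)]
      have h1 := h _ hu
      rw [map_smul, inner_smul_left, inner_smul_right, map_inv₀, Complex.conj_ofReal] at h1
      have h2 : (‖x‖ : ℂ)⁻¹ ≠ 0 := inv_ne_zero hxn
      simpa [h2] using h1
  ext x
  have h2 := (inner_map_self_eq_zero (J : H →ₗ[ℂ] H)).1 (fun x => by
    have h3 := h' x
    rw [← inner_conj_symm, ContinuousLinearMap.coe_coe, h3, map_zero])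
  exact congrArg (fun L : H →ₗ[ℂ] H => L x) h2

/-- Equal moduli of `s` and `s + μ` in terms of the operator `J`. -/
theorem J_eq {T : H →L[ℂ] H} {μ : ℂ}
    (h : ∀ x : H, ‖x‖ = 1 → ‖(inner ℂ x (T x) : ℂ)‖ = ‖(inner ℂ x (T x) : ℂ) + μ‖) :
    μ = 0 ∨ ∃ η : ℂ, ‖η‖ = 1 ∧ T + μ • (1 : H →L[ℂ] H) = η • adjoint T := by
  by_cases hμ : μ = 0
  · exact Or.inl hμ
  right
  have hJ : conj μ • T + μ • adjoint T + (μ * conj μ) • (1 : H →L[ℂ] H) = 0 := by
    apply zero_of_form
    intro x hx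
    have h1 := h x hx
    have hxx : (inner ℂ x x : ℂ) = 1 := by rw [inner_self_eq_norm_sq_to_K, hx]; simp
    have h2 : (inner ℂ x (adjoint T x) : ℂ) = conj (inner ℂ x (T x) : ℂ) := by
      rw [adjoint_inner_right, inner_conj_symm]
    simp only [add_apply, smul_apply, one_apply_eq_self, inner_add_right, inner_smul_right, hxx, h2, mul_one]
    set s : ℂ := inner ℂ x (T x) with hs
    have h3 : s * conj s = (s + μ) * conj (s + μ) := by
      rw [Complex.mul_conj, Complex.mul_conj, Complex.normSq_eq_norm_sq, Complex.normSq_eq_norm_sq, h1]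
    rw [map_add] at h3
    linear_combination -h3
  have hcμ : conj μ ≠ 0 := by simpa using hμ
  refine ⟨-(μ / conj μ), ?_, ?_⟩
  · rw [norm_neg, norm_div, Complex.norm_conj, div_self (norm_ne_zero_iff.2 hμ)]
  · have h4 : T + μ • (1 : H →L[ℂ] H) = (conj μ)⁻¹ • (conj μ • T + μ • adjoint T + (μ * conj μ) • (1 : H →L[ℂ] H)) -
        ((μ / conj μ) • adjoint T) := by
      rw [smul_add, smul_add, smul_smul, smul_smul, smul_smul, inv_mul_cancel₀ hcμ, one_smul]
      have e1 : (conj μ)⁻¹ * (μ * conj μ) = μ := by field_simp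
      have e2 : (conj μ)⁻¹ * μ = μ / conj μ := by rw [div_eq_mul_inv, mul_comm]
      rw [e1, e2]; abel
    rw [h4, hJ, smul_zero, zero_sub, neg_smul]

end E9A

section e

variable {H : Type*} [NormedAddCommGroup H] [InnerProductSpace ℂ H] [CompleteSpace H]

theorem second_slot (hH : Dim3 H) {T : H →L[ℂ] H} {μ : ℂ}
    (h : ∀ x y, ‖x‖ = 1 → ‖y‖ = 1 → inner ℂ x y = (0 : ℂ) →
      sr (skb (po x y) T) = sr (skb (po x y) (T + μ • (1 : H →L[ℂ] H))))
    (h2 : ∀ x : H, ‖x‖ = 1 →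
      sr (skb (I • po x x) T) = sr (skb (I • po x x) (T + μ • (1 : H →L[ℂ] H)))) :
    μ = 0 ∨ ∃ η : ℂ, ‖η‖ = 1 ∧ T + μ • (1 : H →L[ℂ] H) = η • adjoint T := by
  apply E9A.J_eq
  intro y hy
  have hyy : (inner ℂ y y : ℂ) = 1 := by rw [inner_self_eq_norm_sq_to_K, hy]; simp
  -- the second moment
  have hs2 : ‖(inner ℂ y (T (T y)) : ℂ)‖ =
      ‖(inner ℂ y ((T + μ • (1 : H →L[ℂ] H)) ((T + μ • (1 : H →L[ℂ] H)) y)) : ℂ)‖ := by
    obtain ⟨x, hx, h3, h4⟩ := E9A.exists_orth_two hH y (adjoint T y)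
    have hyx : (inner ℂ y (T x) : ℂ) = 0 := by rw [← adjoint_inner_left]; exact h4
    have hxy : (inner ℂ x y : ℂ) = 0 := by rw [← inner_conj_symm, h3, map_zero]
    have hxx : (inner ℂ x x : ℂ) = 1 := by rw [inner_self_eq_norm_sq_to_K, hx]; simp
    apply norm_eq_of_Rt_phase (τ := - (inner ℂ x (T y) : ℂ))
    intro θ hθ
    have hθ' : ‖conj θ‖ = 1 := by rw [Complex.norm_conj, hθ]
    have h5 := h (conj θ • x) y (by rw [norm_smul, hθ', hx, mul_one]) hy
      (by rw [inner_smul_left, hxy, mul_zero])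
    rw [e_po_test, e_po_test] at h5
    have hM : ∀ z, (T + μ • (1 : H →L[ℂ] H)) z = T z + μ • z := fun z => rfl
    have hθθ : θ * conj θ = 1 := by rw [Complex.mul_conj, Complex.normSq_eq_norm_sq, hθ]; simp
    simp only [hM, map_add, map_smul, inner_add_right, inner_smul_left,
      inner_smul_right, hyx, h3, hxy, hxx, Complex.conj_conj, mul_zero, zero_mul, add_zero, zero_sub,
      sub_zero, mul_one] at h5 ⊢
    have hc : conj θ * θ = 1 := by rw [mul_comm]; exact hθθ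
    rw [hc, one_mul, one_mul] at h5
    rw [mul_neg]
    exact h5
  have h6 := h2 y hy
  rw [e_iP_test _ hy, e_iP_test _ hy] at h6
  have hM : ∀ z, (T + μ • (1 : H →L[ℂ] H)) z = T z + μ • z := fun z => rfl
  set A : H →L[ℂ] H := T + μ • (1 : H →L[ℂ] H) with hA
  have e1 : (inner ℂ y (A y) : ℂ) = inner ℂ y (T y) + μ := by
    rw [hM, inner_add_right, inner_smul_right, hyy, mul_one]
  have e2 : (inner ℂ y (A (A y)) : ℂ) = inner ℂ y (T (T y)) + 2 * μ * inner ℂ y (T y) + μ ^ 2 := by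
    rw [hM, hM, map_add, map_smul]
    simp only [inner_add_right, inner_smul_right, smul_add, hyy]
    ring
  have h7 := Rt_sum_sq h6 (by rw [e1, e2]; congr 1; ring)
  have e3 : (2 * (inner ℂ y (T y) : ℂ)) ^ 2 - 4 * ((inner ℂ y (T y) : ℂ) ^ 2 - inner ℂ y (T (T y))) =
      4 * inner ℂ y (T (T y)) := by ring
  have e4 : (2 * (inner ℂ y (A y) : ℂ)) ^ 2 - 4 * ((inner ℂ y (A y) : ℂ) ^ 2 - inner ℂ y (A (A y))) =
      4 * inner ℂ y (A (A y)) := by ring
  rw [e3, e4, norm_mul, norm_mul, norm_mul, norm_mul, ← hs2, e1] at h7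
  have h8 : ‖(inner ℂ y (T y) : ℂ)‖ ^ 2 = ‖(inner ℂ y (T y) : ℂ) + μ‖ ^ 2 := by
    have : ‖(2 : ℂ)‖ = 2 := by simp
    rw [this] at h7
    nlinarith [h7]
  exact (sq_eq_sq₀ (norm_nonneg _) (norm_nonneg _)).1 h8

/-- The second slot: `φ T` is a unimodular multiple of `T` or of its adjoint. -/
theorem e_second (hH : Dim2 H) {φ : (H →L[ℂ] H) → (H →L[ℂ] H)} (hφ : NormE φ) (T : H →L[ℂ] H) :
    ∃ η : ℂ, ‖η‖ = 1 ∧ (φ T = η • T ∨ φ T = η • adjoint T) := by
  have hF : ∀ x y : H, inner ℂ x y = (0 : ℂ) → max ‖(inner ℂ y (T x) : ℂ)‖ ‖(inner ℂ x (T y) : ℂ)‖ =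
      max ‖(inner ℂ y (φ T x) : ℂ)‖ ‖(inner ℂ x (φ T y) : ℂ)‖ := fun x y h => e_F1 hφ hH T h
  have hpo : ∀ x y : H, ‖x‖ = 1 → ‖y‖ = 1 → inner ℂ x y = (0 : ℂ) →
      sr (skb (po x y) (φ T)) = sr (skb (po x y) T) := by
    intro x y hx hy hxy
    rw [← hφ.pres (po x y) T]
    rcases e_po_fixed hφ hH hx hy hxy with h | h
    · rw [h]
    · rw [h, e_neg_left]
  have hiP : ∀ x : H, ‖x‖ = 1 → sr (skb (I • po x x) (φ T)) = sr (skb (I • po x x) T) := by
    intro x hx
    rw [← hφ.pres (I • po x x) T]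
    rcases hφ.hiP x hx with h | h
    · rw [h]
    · rw [h, e_neg_left]
  have hP : ∀ x : H, ‖x‖ = 1 → sr (skb (po x x) (φ T)) = sr (skb (po x x) T) := by
    intro x hx
    rw [← hφ.pres (po x x) T]
    rcases hφ.hP x hx with h | h
    · rw [h]
    · rw [h, e_neg_left]
  -- the linear form
  obtain ⟨α, β, hα, hlin⟩ : ∃ α β : ℂ, ‖α‖ = 1 ∧ (φ T = α • T + β • (1 : H →L[ℂ] H) ∨
      φ T = α • adjoint T + β • (1 : H →L[ℂ] H)) := by
    by_cases h3 : Dim3 H
    · exact lin_of_F1 h3 hF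
    · refine lin_of_F1_two h3 hF ?_
      intro x hx
      rw [← e_P_test T hx, ← e_P_test (φ T) hx, hP x hx]
  have hα0 : α ≠ 0 := by
    intro h0
    rw [h0, norm_zero] at hα
    exact zero_ne_one hα
  -- the slot argument for `R = T` or the adjoint
  have key : ∀ R : H →L[ℂ] H, (∀ S, sr (skb S R) = sr (skb S T)) →
      φ T = α • R + β • (1 : H →L[ℂ] H) →
      β = 0 ∨ ∃ η : ℂ, ‖η‖ = 1 ∧ R + (β / α) • (1 : H →L[ℂ] H) = η • adjoint R := by
    intro R hR hRT
    have e : φ T = α • (R + (β / α) • (1 : H →L[ℂ] H)) := by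
      rw [hRT, smul_add, smul_smul, mul_div_cancel₀ _ hα0]
    have g1 : ∀ x y : H, ‖x‖ = 1 → ‖y‖ = 1 → inner ℂ x y = (0 : ℂ) →
        sr (skb (po x y) R) = sr (skb (po x y) (R + (β / α) • (1 : H →L[ℂ] H))) := by
      intro x y hx hy hxy
      have := hpo x y hx hy hxy
      rw [e, e_smul_right, hα, one_mul] at this
      rw [this, hR]
    have g2 : ∀ x : H, ‖x‖ = 1 →
        sr (skb (I • po x x) R) = sr (skb (I • po x x) (R + (β / α) • (1 : H →L[ℂ] H))) := by
      intro x hx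
      have := hiP x hx
      rw [e, e_smul_right, hα, one_mul] at this
      rw [this, hR]
    have g3 : β / α = 0 ∨ ∃ η : ℂ, ‖η‖ = 1 ∧ R + (β / α) • (1 : H →L[ℂ] H) = η • adjoint R := by
      by_cases h3 : Dim3 H
      · exact second_slot h3 g1 g2
      · exact second_slot_two hH h3 g1
    rcases g3 with g3 | g3
    · left
      rcases div_eq_zero_iff.1 g3 with h | h
      · exact h
      · exact absurd h hα0
    · exact Or.inr g3
  rcases hlin with hlin | hlin
  · rcases key T (fun _ => rfl) hlin with h | ⟨η, hη, h⟩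
    · refine ⟨α, hα, Or.inl ?_⟩
      rw [hlin, h, zero_smul, add_zero]
    · refine ⟨α * η, by rw [norm_mul, hα, hη, one_mul], Or.inr ?_⟩
      rw [hlin, ← smul_smul, ← h, smul_add, smul_smul, mul_div_cancel₀ _ hα0]
  · rcases key (adjoint T) (fun S => e_adj_right S T) hlin with h | ⟨η, hη, h⟩
    · refine ⟨α, hα, Or.inr ?_⟩
      rw [hlin, h, zero_smul, add_zero]
    · refine ⟨α * η, by rw [norm_mul, hα, hη, one_mul], Or.inl ?_⟩
      rw [adjoint_adjoint] at h
      rw [hlin, ← smul_smul, ← h, smul_add, smul_smul, mul_div_cancel₀ _ hα0]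

/-- The first slot tests are complete. -/
theorem e_first (hH : Dim2 H) {φ : (H →L[ℂ] H) → (H →L[ℂ] H)} (hφ : NormE φ) (T S : H →L[ℂ] H) :
    sr (skb (φ T) S) = sr (skb T S) := by
  obtain ⟨η, hη, h | h⟩ := e_second hH hφ S
  · rw [← hφ.pres T S, h, e_smul_right, hη, one_mul]
  · rw [← hφ.pres T S, h, e_smul_right, hη, one_mul, e_adj_right]

end e

end PR
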